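import Pool.Agent.H32.Torus.Bounds

open MeasureTheory Filter Topology Complex Set
open scoped ContDiff ComplexOrder ComplexConjugate

namespace Pool.Agent.Results.MP_629fd3_an.BalancedTorus

open Pool.Agent.H32.Torus

/-- For every `n ≥ 3` there is a constant `C` such that for every `M` the torus
`X = ℂⁿ / ℤ[i]ⁿ` carries a balanced Hermitian metric `ω` with `∫_X ωⁿ > M` for which every
logarithmic pole (at the origin) of every `ω`-psh function has weight at most `C`. In particular
the statement of Q1 fails on this torus, for every `n ≥ 3`. -/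
theorem result (n : ℕ) (hn : 3 ≤ n) :
    (∃ C : ℝ, ∀ M : ℝ, ∃ W : HermitianMetric n, W.IsBalanced ∧ M < W.volume ∧
      ∀ (φ : Cn n → EReal) (τ : ℝ), OmegaPSH W φ → 0 < τ → HasLogPole φ 0 τ → τ ≤ C) ∧
    ¬ PrescribedPoles n := by
  have hn2 : 2 ≤ n := by omega
  have hn0 : n ≠ 0 := by omega
  have hc0 := c0_pos hn0
  have main : ∃ C : ℝ, ∀ M : ℝ, ∃ W : HermitianMetric n, W.IsBalanced ∧ M < W.volume ∧
      ∀ (φ : Cn n → EReal) (τ : ℝ), OmegaPSH W φ → 0 < τ → HasLogPole φ 0 τ → τ ≤ C := by
    refine ⟨((∫ z in cell n, Jf n z) + bmax n * (n + n * n + n)) / (c0 n / 2), fun M => ?_⟩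
    set c : ℝ := n.factorial * (2 / Real.pi) ^ n * (1 / 256) ^ n with hc
    have hcpos : 0 < c := by
      have := Real.pi_pos
      have := Nat.factorial_pos n
      positivity
    set t : ℝ := max 1 (M / c + 1) with ht
    have ht1 : 1 ≤ t := le_max_left _ _
    have ht2 : M / c < t := lt_of_lt_of_le (by linarith) (le_max_right _ _)
    have ht0 : 0 < t := by linarith
    set K : ℝ := t ^ (2 * n) with hK
    set r : ℝ := 1 / (16 * t ^ (n - 1)) with hr
    have hK1 : 1 ≤ K := one_le_pow₀ ht1
    have htn : 1 ≤ t ^ (n - 1) := one_le_pow₀ ht1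
    have hrpos : 0 < r := by positivity
    have hr1 : r ≤ 1 / 16 := by
      rw [hr, div_le_div_iff₀ (by positivity) (by norm_num)]
      linarith
    refine ⟨met hrpos hr1 hK1, met_isBalanced hrpos hr1 hn2 hK1, ?_, ?_⟩
    · -- the volume
      have h1 := det_integral_ge (n := n) hrpos hr1 hn2 hK1
      have h2 : K ^ n * (r ^ 2) ^ n = (1 / 256) ^ n * t ^ (2 * n) := by
        rw [← mul_pow, hK, hr]
        have e : t ^ (2 * n) = t ^ 2 * (t ^ (n - 1)) ^ 2 := by
          rw [← pow_mul, ← pow_add]
          congr 1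
          omega
        have e2 : t ^ (2 * n) * (1 / (16 * t ^ (n - 1))) ^ 2 = 1 / 256 * t ^ 2 := by
          rw [e]
          field_simp
          norm_num
        rw [e2, mul_pow, pow_mul]
      have h3 : t ≤ t ^ (2 * n) := by
        calc t = t ^ 1 := (pow_one t).symm
          _ ≤ t ^ (2 * n) := pow_le_pow_right₀ ht1 (by omega)
      unfold HermitianMetric.volume
      have hp : (0 : ℝ) ≤ n.factorial * (2 / Real.pi) ^ n := by
        have := Real.pi_pos
        positivity
      calc M = c * (M / c) := by field_simp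
        _ < c * t := by gcongr
        _ ≤ c * t ^ (2 * n) := by gcongr
        _ = n.factorial * (2 / Real.pi) ^ n * (K ^ n * (r ^ 2) ^ n) := by rw [h2, hc]; ring
        _ ≤ _ := mul_le_mul_of_nonneg_left h1 hp
    · intro φ τ hφ hτ hpole
      have h1 := pole_bound (lam := lam hrpos K) (fun z => rfl) (lam_pos hrpos hK1)
        (fun i => (lam_contDiff hrpos hr1 hK1 i).continuous)
        (fun z hz i => lam_near hrpos hr1 hn2 K hz i) hn2 hφ hτ hpole
      have h2 := trace_integral_le (n := n) hrpos hr1 hn2 hK1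
      have e4 : 4 * r ^ 2 = 1 / (64 * (t ^ (n - 1)) ^ 2) := by
        rw [hr]
        field_simp
        norm_num
      have hb1 : K * (4 * r ^ 2) ^ (n - 1) ≤ 1 := by
        rw [e4, one_div, inv_pow, ← div_eq_mul_inv, div_le_one (by positivity), hK]
        calc t ^ (2 * n) ≤ t ^ ((n - 1) * (2 * (n - 1))) := by
              apply pow_le_pow_right₀ ht1
              obtain ⟨m, rfl⟩ : ∃ m, n = m + 3 := ⟨n - 3, by omega⟩
              have : m + 3 - 1 = m + 2 := by omega
              rw [this]
              nlinarith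
          _ = ((t ^ (n - 1)) ^ 2) ^ (n - 1) := by rw [← pow_mul, ← pow_mul]
          _ ≤ (64 * (t ^ (n - 1)) ^ 2) ^ (n - 1) := by
              apply pow_le_pow_left₀ (by positivity)
              have : 0 ≤ (t ^ (n - 1)) ^ 2 := by positivity
              linarith
      have hb2 : K ^ (n - 1) * (4 * r ^ 2) ^ n ≤ 1 := by
        rw [e4, one_div, inv_pow, ← div_eq_mul_inv, div_le_one (by positivity), hK]
        calc (t ^ (2 * n)) ^ (n - 1) = ((t ^ (n - 1)) ^ 2) ^ n := by
              rw [← pow_mul, ← pow_mul, ← pow_mul]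
              congr 1
              ring
          _ ≤ (64 * (t ^ (n - 1)) ^ 2) ^ n := by
              apply pow_le_pow_left₀ (by positivity)
              have : 0 ≤ (t ^ (n - 1)) ^ 2 := by positivity
              linarith
      have hnn : (0 : ℝ) ≤ n := Nat.cast_nonneg n
      have h3 : ∫ z in cell n, ∑ i, lam hrpos K i z ≤ n + n * n + n := by
        refine h2.trans ?_
        have h4 : (n : ℝ) * (n * K * (4 * r ^ 2) ^ (n - 1)) ≤ n * n := by
          have := mul_le_mul_of_nonneg_left hb1 (mul_nonneg hnn hnn)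
          calc (n : ℝ) * (n * K * (4 * r ^ 2) ^ (n - 1)) =
              (n : ℝ) * n * (K * (4 * r ^ 2) ^ (n - 1)) := by ring
            _ ≤ (n : ℝ) * n * 1 := this
            _ = (n : ℝ) * n := mul_one _
        have h5 : (n : ℝ) * K ^ (n - 1) * (4 * r ^ 2) ^ n ≤ n := by
          have := mul_le_mul_of_nonneg_left hb2 hnn
          calc (n : ℝ) * K ^ (n - 1) * (4 * r ^ 2) ^ n =
              (n : ℝ) * (K ^ (n - 1) * (4 * r ^ 2) ^ n) := by ring
            _ ≤ (n : ℝ) * 1 := this
            _ = (n : ℝ) := mul_one _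
        linarith
      rw [le_div_iff₀ (by positivity)]
      have h6 := mul_le_mul_of_nonneg_left h3 (bmax_nonneg n)
      linarith
  refine ⟨main, ?_⟩
  intro hall
  obtain ⟨C, hC⟩ := main
  set τ : ℝ := max C 0 + 1 with hτ
  have hτ0 : 0 < τ := by
    have := le_max_right C 0
    linarith
  have hτC : C < τ := by
    have := le_max_left C 0
    linarith
  obtain ⟨W, -, hvol, hW⟩ := hC (τ ^ n)
  obtain ⟨φ, hφ, hpole⟩ := hall W 1 (fun _ => 0) (fun _ => τ)
    (fun i j hij => absurd (Subsingleton.elim i j) hij) (fun _ => hτ0) (by simpa using hvol)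
  exact absurd (hW φ τ hφ hτ0 (hpole 0)) (not_le.2 hτC)

end Pool.Agent.Results.MP_629fd3_an.BalancedTorus
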